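import Mathlib

/-!
Room CARDY: divisibility by monic polynomials is a closed condition; specialisation of the
parameters `u_j = 1 + j s` to `s = 0`.
-/

namespace Pool.Agent.H983R2.CA

open Polynomial Filter Topology

/-- Divisibility by monic polynomials of fixed degree passes to the limit. -/
theorem dvd_limit {d : ℕ} (D : ℂ → ℂ[X]) (hD : ∀ s, (D s).Monic)
    (hd : ∀ s, (D s).natDegree = d) (cD : ∀ k, ContinuousAt (fun s => (D s).coeff k) 0)
    (N : ℕ) : ∀ (P : ℂ → ℂ[X]), (∀ s, (P s).natDegree < N ∨ P s = 0) →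
    (∀ k, ContinuousAt (fun s => (P s).coeff k) 0) →
    (∀ᶠ s in 𝓝[≠] (0:ℂ), D s ∣ P s) → D 0 ∣ P 0 := by
  induction N with
  | zero =>
    intro P hP _ _
    have : P 0 = 0 := by
      rcases hP 0 with h | h
      · omega
      · exact h
    rw [this]; exact dvd_zero _
  | succ N ih =>
    intro P hP cP h
    by_cases hN : N < d
    · -- degree small: P s = 0 near 0
      have hz : ∀ᶠ s in 𝓝[≠] (0:ℂ), P s = 0 := by
        filter_upwards [h] with s hs
        rcases hP s with hlt | h0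
        · by_contra hne
          have := Polynomial.natDegree_le_of_dvd hs hne
          rw [hd s] at this
          omega
        · exact h0
      have : P 0 = 0 := by
        ext k
        have h1 : Tendsto (fun s => (P s).coeff k) (𝓝[≠] (0:ℂ)) (𝓝 ((P 0).coeff k)) :=
          (cP k).tendsto.mono_left nhdsWithin_le_nhds
        have h2 : Tendsto (fun s => (P s).coeff k) (𝓝[≠] (0:ℂ)) (𝓝 0) := by
          refine (tendsto_congr' ?_).mpr tendsto_const_nhds
          filter_upwards [hz] with s hs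
          rw [hs]; simp
        rw [tendsto_nhds_unique h1 h2]; simp
      rw [this]; exact dvd_zero _
    · push Not at hN
      set P' : ℂ → ℂ[X] := fun s => P s - C ((P s).coeff N) * X^(N-d) * D s with hP'
      have hdeg : ∀ s, (P' s).natDegree < N ∨ P' s = 0 := by
        intro s
        by_cases hz : P' s = 0
        · right; exact hz
        left
        have hle : (P' s).natDegree ≤ N := by
          refine (Polynomial.natDegree_sub_le _ _).trans (max_le ?_ ?_)
          · rcases hP s with h | h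
            · omega
            · rw [h]; simp
          · refine (Polynomial.natDegree_mul_le).trans ?_
            rw [hd s]
            have : (C ((P s).coeff N) * X^(N-d) : ℂ[X]).natDegree ≤ N - d :=
              Polynomial.natDegree_C_mul_X_pow_le _ _
            omega
        have hc : (P' s).coeff N = 0 := by
          have h1 : (C ((P s).coeff N) * X^(N-d) * D s).coeff N = (P s).coeff N := by
            rw [mul_assoc, Polynomial.coeff_C_mul, Polynomial.coeff_X_pow_mul',
              if_pos (Nat.sub_le _ _), show N - (N - d) = d by omega]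
            have : (D s).coeff d = 1 := by
              have := (hD s).coeff_natDegree
              rwa [hd s] at this
            rw [this, mul_one]
          simp only [hP']
          rw [Polynomial.coeff_sub, h1, sub_self]
        rcases Nat.lt_or_ge (P' s).natDegree N with h | h
        · exact h
        · exfalso
          have h2 : (P' s).natDegree = N := le_antisymm hle h
          have h3 : (P' s).leadingCoeff = 0 := by
            unfold Polynomial.leadingCoeff; rw [h2]; exact hc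
          exact hz (Polynomial.leadingCoeff_eq_zero.mp h3)
      have hcont : ∀ k, ContinuousAt (fun s => (P' s).coeff k) 0 := by
        intro k
        have : (fun s => (P' s).coeff k) = fun s => (P s).coeff k -
            (P s).coeff N * (if N - d ≤ k then (D s).coeff (k-(N-d)) else 0) := by
          funext s
          simp only [hP']
          rw [Polynomial.coeff_sub, mul_assoc, Polynomial.coeff_C_mul, Polynomial.coeff_X_pow_mul']
        rw [this]
        refine (cP k).sub ((cP N).mul ?_)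
        split_ifs
        · exact cD _
        · exact continuousAt_const
      have hdvd : ∀ᶠ s in 𝓝[≠] (0:ℂ), D s ∣ P' s := by
        filter_upwards [h] with s hs
        exact dvd_sub hs (dvd_mul_left _ _)
      have := ih P' hdeg hcont hdvd
      have h2 : P 0 = P' 0 + C ((P 0).coeff N) * X^(N-d) * D 0 := by
        simp only [hP']; ring
      rw [h2]
      exact dvd_add this (dvd_mul_left _ _)

/-- coefficientwise continuity at `0` -/
def CC (P : ℂ → ℂ[X]) : Prop := ∀ k, ContinuousAt (fun s => (P s).coeff k) 0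

theorem CC.const (P : ℂ[X]) : CC (fun _ => P) := fun _ => continuousAt_const

theorem CC.C {f : ℂ → ℂ} (hf : ContinuousAt f 0) : CC (fun s => Polynomial.C (f s)) := by
  intro k
  simp only [Polynomial.coeff_C]
  split_ifs
  · exact hf
  · exact continuousAt_const

theorem CC.add {P Q : ℂ → ℂ[X]} (hP : CC P) (hQ : CC Q) : CC (fun s => P s + Q s) := by
  intro k
  simp only [Polynomial.coeff_add]
  exact (hP k).add (hQ k)

theorem CC.sub {P Q : ℂ → ℂ[X]} (hP : CC P) (hQ : CC Q) : CC (fun s => P s - Q s) := by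
  intro k
  simp only [Polynomial.coeff_sub]
  exact (hP k).sub (hQ k)

theorem CC.neg {P : ℂ → ℂ[X]} (hP : CC P) : CC (fun s => - P s) := by
  intro k
  simp only [Polynomial.coeff_neg]
  exact (hP k).neg

theorem CC.mul {P Q : ℂ → ℂ[X]} (hP : CC P) (hQ : CC Q) : CC (fun s => P s * Q s) := by
  intro k
  simp only [Polynomial.coeff_mul]
  exact tendsto_finsetSum _ fun x _ => (hP x.1).mul (hQ x.2)

theorem CC.pow {P : ℂ → ℂ[X]} (hP : CC P) (n : ℕ) : CC (fun s => P s ^ n) := by
  induction n with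
  | zero => simpa using CC.const 1
  | succ n ih =>
    have := ih.mul hP
    simpa [pow_succ] using this

theorem CC.prod {ι : Type*} (t : Finset ι) {P : ι → ℂ → ℂ[X]} (hP : ∀ i ∈ t, CC (P i)) :
    CC (fun s => ∏ i ∈ t, P i s) := by
  classical
  induction t using Finset.induction_on with
  | empty => simpa using CC.const 1
  | insert a t ha ih =>
    have h1 := (hP a (Finset.mem_insert_self _ _)).mul
      (ih fun i hi => hP i (Finset.mem_insert_of_mem hi))
    have h2 : (fun s => ∏ i ∈ insert a t, P i s) = fun s => P a s * ∏ i ∈ t, P i s := by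
      funext s; rw [Finset.prod_insert ha]
    rw [h2]; exact h1

theorem CC.sum {ι : Type*} (t : Finset ι) {P : ι → ℂ → ℂ[X]} (hP : ∀ i ∈ t, CC (P i)) :
    CC (fun s => ∑ i ∈ t, P i s) := by
  intro k
  simp only [Polynomial.finsetSum_coeff]
  exact tendsto_finsetSum _ fun i hi => hP i hi k

/-- substitution `W ↦ cW` -/
theorem CC.scale {P : ℂ → ℂ[X]} (hP : CC P) (c : ℂ) :
    CC (fun s => (P s).comp (Polynomial.C c * Polynomial.X)) := by
  intro k
  simp only [Polynomial.comp_C_mul_X_coeff]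
  exact (hP k).mul continuousAt_const

theorem CC.reflect {P : ℂ → ℂ[X]} (hP : CC P) (N : ℕ) :
    CC (fun s => Polynomial.reflect N (P s)) := by
  intro k
  simp only [Polynomial.coeff_reflect]
  exact hP _

/-- **Specialisation lemma.** If `P s` vanishes at the pairwise different points `r i s` for small
`s ≠ 0` and all `r i 0 = c`, then `(X - c)^m ∣ P 0`, `m` = number of points. -/
theorem pow_dvd_limit {ι : Type*} [Fintype ι] (c : ℂ) (r : ι → ℂ → ℂ)
    (hr : ∀ i, ContinuousAt (r i) 0) (h0 : ∀ i, r i 0 = c)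
    (hinj : ∀ᶠ s in 𝓝[≠] (0:ℂ), Function.Injective (fun i => r i s))
    (N : ℕ) (P : ℂ → ℂ[X]) (hP : ∀ s, (P s).natDegree ≤ N) (cP : CC P)
    (hroot : ∀ᶠ s in 𝓝[≠] (0:ℂ), ∀ i, (P s).eval (r i s) = 0) :
    (Polynomial.X - Polynomial.C c)^(Fintype.card ι) ∣ P 0 := by
  classical
  set D : ℂ → ℂ[X] := fun s => ∏ i : ι, (Polynomial.X - Polynomial.C (r i s)) with hDdef
  have hmon : ∀ s, (D s).Monic := fun s =>
    Polynomial.monic_prod_of_monic _ _ fun i _ => Polynomial.monic_X_sub_C _
  have hdeg : ∀ s, (D s).natDegree = Fintype.card ι := by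
    intro s
    simp only [hDdef]
    rw [Polynomial.natDegree_prod_of_monic _ _ fun i _ => Polynomial.monic_X_sub_C _]
    simp
  have hc : CC D := by
    refine CC.prod _ fun i _ => ?_
    exact (CC.const _).sub (CC.C (hr i))
  have hdvd : ∀ᶠ s in 𝓝[≠] (0:ℂ), D s ∣ P s := by
    filter_upwards [hinj, hroot] with s hs hz
    refine Finset.prod_dvd_of_coprime ?_ ?_
    · intro i _ j _ hij
      exact Polynomial.pairwise_coprime_X_sub_C hs hij
    · intro i _
      rw [Polynomial.dvd_iff_isRoot]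
      exact hz i
  have := dvd_limit D hmon hdeg hc (N+1) P (fun s => Or.inl (Nat.lt_succ_of_le (hP s))) cP hdvd
  have h2 : D 0 = (Polynomial.X - Polynomial.C c)^(Fintype.card ι) := by
    simp only [hDdef, h0, Finset.prod_const, Finset.card_univ]
  rwa [h2] at this

/-- the points `1 + (j+1) s` -/
noncomputable def uu (j : ℕ) (s : ℂ) : ℂ := 1 + (j + 1) * s

/-- the nodes: `1`, `u_j`, `1/u_j` for `j < a` -/
noncomputable def nodes (a : ℕ) : Option (Fin a × Bool) → ℂ → ℂ
  | none => fun _ => 1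
  | some (j, true) => fun s => uu j s
  | some (j, false) => fun s => (uu j s)⁻¹

theorem uu_zero (j : ℕ) : uu j 0 = 1 := by simp [uu]

theorem uu_cont (j : ℕ) : ContinuousAt (uu j) 0 := by
  unfold uu; fun_prop

theorem nodes_cont (a : ℕ) (i : Option (Fin a × Bool)) : ContinuousAt (nodes a i) 0 := by
  rcases i with _ | ⟨j, _ | _⟩
  · exact continuousAt_const
  · refine (uu_cont j).inv₀ ?_
    rw [uu_zero]; exact one_ne_zero
  · exact uu_cont j

theorem nodes_zero (a : ℕ) (i : Option (Fin a × Bool)) : nodes a i 0 = 1 := by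
  rcases i with _ | ⟨j, _ | _⟩
  · rfl
  · show (uu j 0)⁻¹ = 1
    rw [uu_zero, inv_one]
  · exact uu_zero j

theorem small (K : ℝ) : ∀ᶠ s in 𝓝[≠] (0:ℂ), s ≠ 0 ∧ K * ‖s‖ < 1 := by
  have h1 : ∀ᶠ s in 𝓝[≠] (0:ℂ), s ≠ 0 := eventually_mem_nhdsWithin
  have h2 : ∀ᶠ s in 𝓝[≠] (0:ℂ), K * ‖s‖ < 1 := by
    have : Tendsto (fun s : ℂ => K * ‖s‖) (𝓝[≠] (0:ℂ)) (𝓝 (K * ‖(0:ℂ)‖)) :=
      ((continuous_const.mul continuous_norm).tendsto 0).mono_left nhdsWithin_le_nhds
    rw [norm_zero, mul_zero] at this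
    exact this.eventually_lt_const one_pos
  exact h1.and h2

theorem uu_mul_ne {j k : ℕ} {s : ℂ} (hs : s ≠ 0) {a : ℕ} (hj : j < a) (hk : k < a)
    (h : (a:ℝ)^2 * ‖s‖ < 1) : uu j s * uu k s ≠ 1 := by
  intro h1
  have h2 : s * (((j:ℂ) + 1 + (k + 1)) + (j+1) * (k+1) * s) = 0 := by
    unfold uu at h1
    linear_combination h1
  rcases mul_eq_zero.mp h2 with h3 | h3
  · exact hs h3
  · have h4 : ((j:ℂ) + 1 + (k + 1)) = - ((j+1) * (k+1) * s) := by linear_combination h3
    have h5 : ‖((j:ℂ) + 1 + (k + 1))‖ = ‖((j:ℂ)+1) * (k+1) * s‖ := by rw [h4, norm_neg]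
    have h6 : ‖((j:ℂ) + 1 + (k + 1))‖ = (j:ℝ) + 1 + (k+1) := by
      have : ((j:ℂ) + 1 + (k + 1)) = (((j:ℝ) + 1 + (k+1) : ℝ) : ℂ) := by push_cast; ring
      rw [this, Complex.norm_real, Real.norm_eq_abs, abs_of_nonneg (by positivity)]
    have h7 : ‖((j:ℂ)+1) * (k+1) * s‖ = ((j:ℝ) + 1) * (k+1) * ‖s‖ := by
      have : ((j:ℂ)+1) * (k+1) * s = ((((j:ℝ) + 1) * (k+1) : ℝ) : ℂ) * s := by push_cast; ring
      rw [this, norm_mul, Complex.norm_real, Real.norm_eq_abs, abs_of_nonneg (by positivity)]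
    rw [h6, h7] at h5
    have hj' : (j:ℝ) + 1 ≤ a := by exact_mod_cast hj
    have hk' : (k:ℝ) + 1 ≤ a := by exact_mod_cast hk
    have h8 : ((j:ℝ) + 1) * (k+1) ≤ (a:ℝ)^2 := by
      rw [pow_two]
      exact mul_le_mul hj' hk' (by positivity) (by positivity)
    have h9 : ((j:ℝ) + 1) * (k+1) * ‖s‖ < 1 :=
      lt_of_le_of_lt (mul_le_mul_of_nonneg_right h8 (norm_nonneg _)) h
    have : (0:ℝ) ≤ j := Nat.cast_nonneg _
    have : (0:ℝ) ≤ k := Nat.cast_nonneg _
    linarith

theorem uu_inj {j k : ℕ} {s : ℂ} (hs : s ≠ 0) (h : uu j s = uu k s) : j = k := by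
  unfold uu at h
  have : ((j:ℂ) - k) * s = 0 := by linear_combination h
  rcases mul_eq_zero.mp this with h | h
  · exact_mod_cast sub_eq_zero.mp h
  · exact absurd h hs

theorem uu_ne_zero {j : ℕ} {s : ℂ} {a : ℕ} (hj : j < a) (h : (a:ℝ) * ‖s‖ < 1) :
    uu j s ≠ 0 := by
  intro h1
  unfold uu at h1
  have h2 : ((j:ℂ) + 1) * s = -1 := by linear_combination h1
  have h3 : ‖((j:ℂ) + 1) * s‖ = 1 := by rw [h2]; simp
  have h4 : ((j:ℂ) + 1) = (((j:ℝ) + 1 : ℝ) : ℂ) := by push_cast; ring
  rw [norm_mul, h4, Complex.norm_real, Real.norm_eq_abs, abs_of_nonneg (by positivity)] at h3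
  have hj' : (j:ℝ) + 1 ≤ a := by exact_mod_cast hj
  have : ((j:ℝ) + 1) * ‖s‖ ≤ a * ‖s‖ := mul_le_mul_of_nonneg_right hj' (norm_nonneg _)
  linarith

theorem uu_ne_one {j : ℕ} {s : ℂ} (hs : s ≠ 0) : uu j s ≠ 1 := by
  intro h1
  unfold uu at h1
  have : ((j:ℂ) + 1) * s = 0 := by linear_combination h1
  rcases mul_eq_zero.mp this with h | h
  · exact Nat.cast_add_one_ne_zero j h
  · exact hs h

theorem nodes_inj (a : ℕ) :
    ∀ᶠ s in 𝓝[≠] (0:ℂ), Function.Injective (fun i => nodes a i s) := by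
  filter_upwards [small ((a:ℝ)^2), small (a:ℝ)] with s hs hs'
  obtain ⟨hs, h2⟩ := hs
  have h1 := hs'.2
  rintro (_ | ⟨j, _ | _⟩) (_ | ⟨k, _ | _⟩) h
  · rfl
  · exact absurd (inv_eq_one.mp (show (uu k s)⁻¹ = 1 from h.symm)) (uu_ne_one hs)
  · exact absurd (show uu k s = 1 from h.symm) (uu_ne_one hs)
  · exact absurd (inv_eq_one.mp (show (uu j s)⁻¹ = 1 from h)) (uu_ne_one hs)
  · have : uu j s = uu k s := inv_injective (show (uu j s)⁻¹ = (uu k s)⁻¹ from h)
    have := Fin.ext (uu_inj hs this)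
    rw [this]
  · exfalso
    have h3 : (uu j s)⁻¹ = uu k s := h
    refine uu_mul_ne hs k.2 j.2 h2 ?_
    rw [← h3, inv_mul_cancel₀ (uu_ne_zero j.2 h1)]
  · exact absurd (show uu j s = 1 from h) (uu_ne_one hs)
  · exfalso
    have h3 : uu j s = (uu k s)⁻¹ := h
    refine uu_mul_ne hs j.2 k.2 h2 ?_
    rw [h3, inv_mul_cancel₀ (uu_ne_zero k.2 h1)]
  · have : uu j s = uu k s := h
    have := Fin.ext (uu_inj hs this)
    rw [this]

/-- **Specialisation `u_j = 1 + (j+1) s → 1`.** -/
theorem pow_dvd_at_one (a N : ℕ) (P : ℂ → ℂ[X]) (hP : ∀ s, (P s).natDegree ≤ N) (cP : CC P)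
    (h1 : ∀ᶠ s in 𝓝[≠] (0:ℂ), (P s).eval 1 = 0)
    (hu : ∀ j < a, ∀ᶠ s in 𝓝[≠] (0:ℂ), (P s).eval (uu j s) = 0)
    (hv : ∀ j < a, ∀ᶠ s in 𝓝[≠] (0:ℂ), (P s).eval (uu j s)⁻¹ = 0) :
    (Polynomial.X - 1)^(2*a+1) ∣ P 0 := by
  have hall : ∀ᶠ s in 𝓝[≠] (0:ℂ), ∀ i, (P s).eval (nodes a i s) = 0 := by
    rw [Filter.eventually_all]
    rintro (_ | ⟨j, _ | _⟩)
    · exact h1
    · exact hv j j.2
    · exact hu j j.2
  have := pow_dvd_limit 1 (nodes a) (nodes_cont a) (nodes_zero a) (nodes_inj a) N P hP cP hall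
  have hcard : Fintype.card (Option (Fin a × Bool)) = 2*a+1 := by
    simp [mul_comm]
  rw [hcard] at this
  simpa using this

end Pool.Agent.H983R2.CA
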